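import Pool.Agent.U955.TD.Stm

set_option autoImplicit false

/-!
Project TD (helper955), package RT (helper397): roots and trigonometric identities.
-/

open Finset

namespace Pool.Agent.U397.TD

open Pool.Agent.U955.TD

theorem W_trig (θ : ℝ) : ∀ i : ℕ, W (2 * Real.cos θ) i * Real.sin θ = Real.sin (i * θ) ∧
    W (2 * Real.cos θ) (i + 1) * Real.sin θ = Real.sin ((i + 1 : ℕ) * θ) := by
  intro i
  induction i with
  | zero => simp [W]
  | succ i ih =>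
    refine ⟨ih.2, ?_⟩
    have e : W (2 * Real.cos θ) (i + 1 + 1) =
        2 * Real.cos θ * W (2 * Real.cos θ) (i + 1) - W (2 * Real.cos θ) i := rfl
    rw [e, sub_mul, mul_assoc, ih.1, ih.2]
    have h1 : ((i + 1 + 1 : ℕ) : ℝ) * θ = ((i + 1 : ℕ) : ℝ) * θ + θ := by push_cast; ring
    have h2 : (i : ℝ) * θ = ((i + 1 : ℕ) : ℝ) * θ - θ := by push_cast; ring
    rw [h1, h2, Real.sin_add, Real.sin_sub]
    ring

theorem W_hyp (z : ℝ) (hz : z ≠ 0) : ∀ i : ℕ, W (z + z⁻¹) i * (z - z⁻¹) = z ^ i - (z⁻¹) ^ i ∧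
    W (z + z⁻¹) (i + 1) * (z - z⁻¹) = z ^ (i + 1) - (z⁻¹) ^ (i + 1) := by
  intro i
  induction i with
  | zero => simp [W]
  | succ i ih =>
    refine ⟨ih.2, ?_⟩
    have e : W (z + z⁻¹) (i + 1 + 1) = (z + z⁻¹) * W (z + z⁻¹) (i + 1) - W (z + z⁻¹) i := rfl
    rw [e, sub_mul, mul_assoc, ih.1, ih.2]
    have h : z * z⁻¹ = 1 := mul_inv_cancel₀ hz
    have h1 : z⁻¹ * z ^ (i + 1) = z ^ i := by
      rw [pow_succ]
      calc z⁻¹ * (z ^ i * z) = z ^ i * (z * z⁻¹) := by ring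
        _ = z ^ i := by rw [h, mul_one]
    have h2 : z * (z⁻¹) ^ (i + 1) = (z⁻¹) ^ i := by
      rw [pow_succ]
      calc z * ((z⁻¹) ^ i * z⁻¹) = (z⁻¹) ^ i * (z * z⁻¹) := by ring
        _ = (z⁻¹) ^ i := by rw [h, mul_one]
    have e1 : (z + z⁻¹) * (z ^ (i + 1) - (z⁻¹) ^ (i + 1)) =
        z ^ (i + 1 + 1) - (z⁻¹) ^ (i + 1 + 1) + z⁻¹ * z ^ (i + 1) - z * (z⁻¹) ^ (i + 1) := by ring
    rw [e1, h1, h2]
    ring

/-- the identities at a root -/
theorem at_root (M : ℕ) (ψ : ℝ) (hs : Real.sin (2 * ψ) ≠ 0)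
    (hr : Real.cos (((M : ℝ) + 2) * ψ) = 2 * Real.cos (M * ψ)) :
    (2 * (2 * Real.cos (2 * ψ)) - 5) * W (2 * Real.cos (2 * ψ)) (M + 1) = 3 ∧
    (2 * (2 * Real.cos (2 * ψ)) - 5) * W (2 * Real.cos (2 * ψ)) M = 4 - 2 * Real.cos (2 * ψ) := by
  obtain ⟨h0, h1⟩ := W_trig (2 * ψ) M
  obtain ⟨x, hx⟩ : ∃ x, x = ((M : ℝ) + 1) * ψ := ⟨_, rfl⟩
  have e1 : ((M + 1 : ℕ) : ℝ) * (2 * ψ) = 2 * x := by rw [hx]; push_cast; ring
  have e0 : (M : ℝ) * (2 * ψ) = 2 * x - 2 * ψ := by rw [hx]; ring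
  have e2 : ((M : ℝ) + 2) * ψ = x + ψ := by rw [hx]; ring
  have e3 : (M : ℝ) * ψ = x - ψ := by rw [hx]; ring
  rw [e1] at h1
  rw [e0] at h0
  rw [e2, e3, Real.cos_add, Real.cos_sub] at hr
  rw [Real.sin_two_mul x] at h1
  rw [Real.sin_sub, Real.sin_two_mul x, Real.cos_two_mul' x] at h0
  have hC : Real.sin ψ ^ 2 + Real.cos ψ ^ 2 = 1 := Real.sin_sq_add_cos_sq ψ
  have hc : Real.sin x ^ 2 + Real.cos x ^ 2 = 1 := Real.sin_sq_add_cos_sq x
  rw [Real.cos_two_mul' ψ] at *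
  rw [Real.sin_two_mul ψ] at *
  generalize Real.sin ψ = S at *
  generalize Real.cos ψ = C at *
  generalize Real.sin x = s at *
  generalize Real.cos x = c at *
  have R : c * C + 3 * s * S = 0 := by linarith
  have a1 : (C ^ 2 + 9 * S ^ 2) * (s * c) = -3 * S * C := by
    linear_combination (s * C + 3 * c * S) * R - 3 * S * C * hc
  have a2 : (C ^ 2 + 9 * S ^ 2) * (c ^ 2 - s ^ 2) = 9 * S ^ 2 - C ^ 2 := by
    linear_combination 2 * (c * C - 3 * s * S) * R + (9 * S ^ 2 - C ^ 2) * hc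
  have a3 : 2 * (2 * (C ^ 2 - S ^ 2)) - 5 = -(C ^ 2 + 9 * S ^ 2) := by
    linear_combination 5 * hC
  constructor
  · apply mul_right_cancel₀ hs
    rw [mul_assoc, h1, a3]
    linear_combination (-2) * a1
  · apply mul_right_cancel₀ hs
    rw [mul_assoc, h0, a3]
    linear_combination (-2) * (C ^ 2 - S ^ 2) * a1 + 2 * S * C * a2 + 8 * S * C * hC

/-- the roots -/
theorem root (M j : ℕ) (hM : 0 < M) : ∃ ψ : ℝ, Real.pi * j / M < ψ ∧ ψ < Real.pi * (j + 1) / M ∧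
    Real.cos (((M : ℝ) + 2) * ψ) = 2 * Real.cos (M * ψ) := by
  have hM' : (0 : ℝ) < M := by exact_mod_cast hM
  obtain ⟨h, hh⟩ : ∃ h : ℝ → ℝ, h = fun ψ => -(-1) ^ j * (Real.cos (((M : ℝ) + 2) * ψ) -
    2 * Real.cos (M * ψ)) := ⟨_, rfl⟩
  have hle : Real.pi * j / M ≤ Real.pi * (j + 1) / M := by
    gcongr
    linarith
  have hcont : ContinuousOn h (Set.Icc (Real.pi * j / M) (Real.pi * (j + 1) / M)) := by
    rw [hh]
    fun_prop
  have hpm : ((-1 : ℝ) ^ j) ^ 2 = 1 := by rw [← pow_mul, mul_comm, pow_mul]; norm_num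
  have habs : |(-1 : ℝ) ^ j| = 1 := by rw [abs_pow]; norm_num
  have hb : ∀ y : ℝ, |(-1 : ℝ) ^ j * Real.cos y| ≤ 1 := by
    intro y
    rw [abs_mul, habs, one_mul]
    exact Real.abs_cos_le_one y
  have ha : 0 < h (Real.pi * j / M) := by
    have e1 : (M : ℝ) * (Real.pi * j / M) = j * Real.pi := by field_simp
    rw [hh]
    show 0 < -(-1) ^ j * (Real.cos (((M : ℝ) + 2) * (Real.pi * j / M)) -
      2 * Real.cos (M * (Real.pi * j / M)))
    rw [e1, Real.cos_nat_mul_pi]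
    have := (abs_le.1 (hb (((M : ℝ) + 2) * (Real.pi * j / M)))).2
    nlinarith
  have hb' : h (Real.pi * (j + 1) / M) < 0 := by
    have e1 : (M : ℝ) * (Real.pi * (j + 1) / M) = ((j + 1 : ℕ) : ℝ) * Real.pi := by
      push_cast
      field_simp
    rw [hh]
    show -(-1) ^ j * (Real.cos (((M : ℝ) + 2) * (Real.pi * (j + 1) / M)) -
      2 * Real.cos (M * (Real.pi * (j + 1) / M))) < 0
    rw [e1, Real.cos_nat_mul_pi, pow_succ]
    have := (abs_le.1 (hb (((M : ℝ) + 2) * (Real.pi * (j + 1) / M)))).1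
    nlinarith
  obtain ⟨ψ, hψ, hψ0⟩ := intermediate_value_Ioo' hle hcont ⟨hb', ha⟩
  refine ⟨ψ, hψ.1, hψ.2, ?_⟩
  rw [hh] at hψ0
  have h1 : -(-1 : ℝ) ^ j ≠ 0 := by
    rw [neg_ne_zero]
    exact pow_ne_zero _ (by norm_num)
  have h2 := (mul_eq_zero.1 hψ0).resolve_left h1
  exact sub_eq_zero.1 h2

/-- the large energy -/
theorem big (M : ℕ) (hM : 2 ≤ M) : ∃ t : ℝ, 5 / 2 < t ∧ (2 * t - 5) * W t (M + 1) = 3 ∧
    (2 * t - 5) * W t M = 4 - t := by
  have hcont : ContinuousOn (fun z : ℝ => z ^ (M + 1) * (z - 2) - (2 * z - 1)) (Set.Icc 2 3) := by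
    fun_prop
  have h3 : (27 : ℝ) ≤ 3 ^ (M + 1) := by
    calc (27 : ℝ) = 3 ^ 3 := by norm_num
      _ ≤ 3 ^ (M + 1) := pow_le_pow_right₀ (by norm_num) (by omega)
  obtain ⟨z, hz, hz0⟩ := intermediate_value_Ioo (by norm_num : (2 : ℝ) ≤ 3) hcont
    (show (0 : ℝ) ∈ Set.Ioo _ _ from ⟨by norm_num, by norm_num; linarith⟩)
  have hz2 : 2 < z := hz.1
  have hzp : 0 < z := by linarith
  have hz1 : z ≠ 0 := hzp.ne'
  have hz2' : z - 2 ≠ 0 := by linarith
  have hz3 : 2 * z - 1 ≠ 0 := by linarith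
  have hzz : z ^ (M + 1) * (z - 2) = 2 * z - 1 := sub_eq_zero.1 hz0
  obtain ⟨h0, h1⟩ := W_hyp z hz1 M
  have hZ : z ^ (M + 1) = (2 * z - 1) / (z - 2) := by
    rw [eq_div_iff hz2']
    exact hzz
  have hZ0 : z ^ M = (2 * z - 1) / ((z - 2) * z) := by
    rw [eq_div_iff (mul_ne_zero hz2' hz1)]
    rw [pow_succ] at hzz
    linear_combination hzz
  rw [inv_pow, hZ0] at h0
  rw [inv_pow, hZ] at h1
  have hD : z - z⁻¹ ≠ 0 := by
    have : z⁻¹ < 1 := inv_lt_one_of_one_lt₀ (by linarith)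
    linarith
  have hz21 : z ^ 2 - 1 ≠ 0 := by nlinarith
  refine ⟨z + z⁻¹, ?_, ?_, ?_⟩
  · have : z + z⁻¹ - 5 / 2 = (2 * z - 1) * (z - 2) / (2 * z) := by
      field_simp
      ring
    have h4 : 0 < (2 * z - 1) * (z - 2) / (2 * z) := by
      apply div_pos
      · apply mul_pos <;> linarith
      · linarith
    linarith
  · apply mul_right_cancel₀ hD
    rw [mul_assoc, h1]
    field_simp
    ring
  · apply mul_right_cancel₀ hD
    rw [mul_assoc, h0]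
    field_simp
    ring

theorem t_RT : S_RT := by
  intro n m hm
  obtain ⟨M, rfl⟩ : ∃ M, m = M + 3 := ⟨m - 3, by omega⟩
  have hM : 2 * (n + 1) ≤ M := by omega
  have hM0 : 0 < M := by omega
  have hMr : (0 : ℝ) < M := by exact_mod_cast hM0
  obtain ⟨t0, ht0, h1, h0⟩ := big M (by omega)
  choose ψ hψ1 hψ2 hψ3 using fun j : ℕ => root M j hM0
  have hpos : ∀ j : Fin (n + 1), 0 < ψ j ∧ 2 * ψ j < Real.pi := by
    intro j
    constructor
    · refine lt_of_le_of_lt ?_ (hψ1 j)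
      positivity
    · have h2 := hψ2 j
      have h3 : Real.pi * ((j : ℕ) + 1) / M ≤ Real.pi / 2 := by
        rw [div_le_div_iff₀ hMr (by norm_num)]
        have h4 : (((j : ℕ) : ℝ) + 1) * 2 ≤ M := by
          have : ((j : ℕ) + 1) * 2 ≤ M := by have := j.2; omega
          exact_mod_cast this
        have := Real.pi_pos
        nlinarith
      linarith
  have hmono : ∀ i j : ℕ, i < j → ψ i < ψ j := by
    intro i j hij
    refine (hψ2 i).trans_le (le_trans ?_ (hψ1 j).le)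
    have : ((i : ℝ) + 1) ≤ j := by exact_mod_cast hij
    have := Real.pi_pos
    gcongr
  have hlt : ∀ j : Fin (n + 1), 2 * Real.cos (2 * ψ j) < 2 := by
    intro j
    obtain ⟨h2, h3⟩ := hpos j
    have : Real.cos (2 * ψ j) < Real.cos 0 :=
      Real.cos_lt_cos_of_nonneg_of_le_pi le_rfl h3.le (by linarith)
    rw [Real.cos_zero] at this
    linarith
  refine ⟨Fin.cons t0 (fun j : Fin (n + 1) => 2 * Real.cos (2 * ψ j)), ?_, ?_, ?_, ?_⟩
  · rw [Fin.cons_injective_iff]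
    constructor
    · rintro ⟨j, hj⟩
      have := hlt j
      have h5 : 2 * Real.cos (2 * ψ j) = t0 := hj
      linarith
    · intro i j hij
      have h2 : Real.cos (2 * ψ i) = Real.cos (2 * ψ j) := by
        have : 2 * Real.cos (2 * ψ i) = 2 * Real.cos (2 * ψ j) := hij
        linarith
      have h3 := Real.injOn_cos ⟨by linarith [(hpos i).1], (hpos i).2.le⟩
        ⟨by linarith [(hpos j).1], (hpos j).2.le⟩ h2
      by_contra hne
      rcases lt_or_gt_of_ne (fun h => hne (Fin.ext h) : (i : ℕ) ≠ j) with h | h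
      · have := hmono _ _ h
        linarith
      · have := hmono _ _ h
        linarith
  · simpa using ht0
  · intro j hj
    obtain ⟨i, rfl⟩ := Fin.exists_succ_eq.2 hj
    rw [Fin.cons_succ]
    exact hlt i
  · intro j
    refine Fin.cases ?_ (fun i => ?_) j
    · rw [Fin.cons_zero]
      exact ⟨h1, h0⟩
    · rw [Fin.cons_succ]
      have hs : Real.sin (2 * ψ i) ≠ 0 :=
        (Real.sin_pos_of_pos_of_lt_pi (by linarith [(hpos i).1]) (hpos i).2).ne'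
      exact at_root M (ψ i) hs (hψ3 i)

end Pool.Agent.U397.TD
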